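import Mathlib
import Pool.Agent.V11304.UC.Cases

/-!
# Union-closed families generated by 3-tiles on the torus satisfy the union-closed conjecture
-/

set_option linter.unusedSectionVars false

namespace Pool.Agent.Results.MP_dbcba7_co.Full

open Finset

/-- The union-closed family generated by `𝒢`: all unions of nonempty subfamilies of `𝒢`. -/
def generated {α : Type} [DecidableEq α] (𝒢 : Finset (Finset α)) : Finset (Finset α) :=
  (𝒢.powerset.filter (fun 𝒮 => 𝒮.Nonempty)).image (fun 𝒮 => 𝒮.biUnion id)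

/-- The tiles `(R × {0}) + v` and `({0} × R) + v` on the torus `ℤ_n²`. -/
def tiles {n : ℕ} [NeZero n] (R : Finset (ZMod n)) : Finset (Finset (ZMod n × ZMod n)) :=
  (univ.image fun v : ZMod n × ZMod n => (R ×ˢ ({0} : Finset (ZMod n))).image (fun p => p + v)) ∪
  (univ.image fun v : ZMod n × ZMod n => (({0} : Finset (ZMod n)) ×ˢ R).image (fun p => p + v))

section

open Pool.Agent.V11304.UC

variable {n : ℕ} [NeZero n]

theorem hor_eq (R : Finset (ZMod n)) (v : ZMod n × ZMod n) :
    (R ×ˢ ({0} : Finset (ZMod n))).image (fun p => p + v) = HT R v := by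
  ext p
  rw [mem_image, mem_HT]
  constructor
  · rintro ⟨q, hq, rfl⟩
    rw [mem_product, mem_singleton] at hq
    refine ⟨?_, ?_⟩
    · rw [Prod.fst_add, add_sub_cancel_right]; exact hq.1
    · rw [Prod.snd_add, hq.2, zero_add]
  · rintro ⟨h1, h2⟩
    refine ⟨p - v, mem_product.2 ⟨h1, ?_⟩, sub_add_cancel p v⟩
    rw [mem_singleton, Prod.snd_sub, h2, sub_self]

theorem ver_eq (R : Finset (ZMod n)) (v : ZMod n × ZMod n) :
    (({0} : Finset (ZMod n)) ×ˢ R).image (fun p => p + v) = VT R v := by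
  ext p
  rw [mem_image, mem_VT]
  constructor
  · rintro ⟨q, hq, rfl⟩
    rw [mem_product, mem_singleton] at hq
    refine ⟨?_, ?_⟩
    · rw [Prod.fst_add, hq.1, zero_add]
    · rw [Prod.snd_add, add_sub_cancel_right]; exact hq.2
  · rintro ⟨h1, h2⟩
    refine ⟨p - v, mem_product.2 ⟨?_, h2⟩, sub_add_cancel p v⟩
    rw [mem_singleton, Prod.fst_sub, h1, sub_self]

theorem tiles_eq (R : Finset (ZMod n)) : tiles R = TT R := by
  unfold tiles TT
  simp only [hor_eq, ver_eq]

theorem generated_sub (R : Finset (ZMod n)) : generated (tiles R) ⊆ FF R := by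
  intro A hA
  obtain ⟨S, hS, rfl⟩ := mem_image.1 hA
  obtain ⟨h1, -⟩ := mem_filter.1 hS
  rw [mem_powerset, tiles_eq] at h1
  rw [mem_FF]
  intro a ha
  obtain ⟨t, ht, hat⟩ := mem_biUnion.1 ha
  exact ⟨t, h1 ht, hat, fun b hb => mem_biUnion.2 ⟨t, ht, hb⟩⟩

theorem mem_generated (R : Finset (ZMod n)) {A : Finset (ZMod n × ZMod n)} (hA : A ∈ FF R)
    {p : ZMod n × ZMod n} (hp : p ∈ A) : A ∈ generated (tiles R) := by
  rw [mem_FF] at hA
  refine mem_image.2 ⟨(TT R).filter (fun t => t ⊆ A), ?_, ?_⟩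
  · rw [mem_filter, mem_powerset, tiles_eq]
    obtain ⟨t, ht, -, hts⟩ := hA p hp
    exact ⟨filter_subset _ _, t, mem_filter.2 ⟨ht, hts⟩⟩
  · ext a
    rw [mem_biUnion]
    constructor
    · rintro ⟨t, ht, hat⟩
      exact (mem_filter.1 ht).2 hat
    · intro ha
      obtain ⟨t, ht, hat, hts⟩ := hA a ha
      exact ⟨t, mem_filter.2 ⟨ht, hts⟩, hat⟩

end

/-- **MP_dbcba7_co, Q1 (answer: yes).** For every `n ≥ 3` and every `R ⊆ ℤ_n` with `|R| = 3`,
every point (hence some point) of `ℤ_n²` belongs to at least half of the members of the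
union-closed family generated by the translates of `R × {0}` and `{0} × R`. -/
theorem result (n : ℕ) [NeZero n] (_hn : 3 ≤ n) (R : Finset (ZMod n)) (hR : R.card = 3)
    (p : ZMod n × ZMod n) :
    (generated (tiles R)).card ≤ 2 * ((generated (tiles R)).filter (fun A => p ∈ A)).card := by
  classical
  have h1 := Pool.Agent.V11304.UC.main R hR p
  have h2 := Finset.card_le_card (generated_sub R)
  have h3 : Pool.Agent.V11304.UC.deg R p ≤
      ((generated (tiles R)).filter (fun A => p ∈ A)).card := by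
    apply Finset.card_le_card
    intro A hA
    obtain ⟨h4, h5⟩ := mem_filter.1 hA
    exact mem_filter.2 ⟨mem_generated R h4 h5, h5⟩
  omega

end Pool.Agent.Results.MP_dbcba7_co.Full
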